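import Pool.Agent.Helper30.EL.St

/-!
# Project EL (MP_2d2425_nt): module BOX, the biased `c` for one box
-/

set_option autoImplicit false

noncomputable section

namespace Pool.Agent.Helper55.EL

open Finset Filter Topology ArithmeticFunction
open Pool.Agent.Helper30.EL
open Pool.Agent.Helper9.TW (gm Qs fm StC9)
open Pool.Agent.Helper18.TR (StBonf StFLmain StLevel)
open Pool.Agent.Helper15.AB (Th StDB StMT)
open Pool.Agent.Helper60.GP (II IsB JJ Err StBVc StPNT StBump StM2)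
open Pool.Agent.Helper48.BK (StSW)
open Pool.Agent.Helper93.KS (bq Pq SW bmq idq ejq mg Gb Vq AD UQ LQ HU HL StBXQ StT1 StDK StCEL StBMQ StSQR StDUA)

/-- few primes divide `D` -/
private theorem few (D a : ℕ) (hD : 1 ≤ D) (hDa : D ≤ a ^ 8) (_ : 2 ≤ a) (T : Finset ℕ)
    (hT : ∀ p ∈ T, p.Prime ∧ p ∣ D) : (T.card : ℝ) ≤ 12 * Real.log a := by
  have hsub : T ⊆ D.primeFactors := by
    intro p hp
    obtain ⟨h1, h2⟩ := hT p hp
    rw [Nat.mem_primeFactors]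
    exact ⟨h1, h2, by omega⟩
  have h1 : 2 ^ T.card ≤ a ^ 8 := by
    calc 2 ^ T.card ≤ 2 ^ D.primeFactors.card := Nat.pow_le_pow_right (by norm_num) (card_le_card hsub)
      _ ≤ ∏ p ∈ D.primeFactors, p := by
          rw [← Finset.prod_const]
          exact Finset.prod_le_prod' fun p hp => (Nat.prime_of_mem_primeFactors hp).two_le
      _ ≤ D := Nat.le_of_dvd (by omega) (Nat.prod_primeFactors_dvd _)
      _ ≤ a ^ 8 := hDa
  have h3 : (T.card : ℝ) * Real.log 2 ≤ 8 * Real.log a := by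
    have h5 : (2 : ℝ) ^ T.card ≤ (a : ℝ) ^ 8 := by exact_mod_cast h1
    have h6 := Real.log_le_log (by positivity) h5
    rw [Real.log_pow, Real.log_pow] at h6
    push_cast at h6
    exact h6
  have hl := Real.log_two_gt_d9
  have hc : (0 : ℝ) ≤ T.card := Nat.cast_nonneg _
  have hla : 0 ≤ Real.log a := Real.log_natCast_nonneg a
  nlinarith

/-- the comparison of the two sums -/
private theorem cmp_sum (D a f : ℕ) [NeZero f] (ψ : DirichletCharacter ℂ f) (P : ℝ) (hD : 1 ≤ D)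
    (hDa : D ≤ a ^ 8) (ha : 2 ≤ a) (hP : 7 ≤ P) (S : Finset ℕ) (hS : ∀ p ∈ S, p.Prime ∧ P ≤ (p : ℝ))
    (hψ : ∀ p : ℕ, p.Prime → p ≠ 2 → ¬ p ∣ D → ψ (p : ZMod f) = ((jacobiSym (-(D : ℤ)) p : ℤ) : ℂ)) :
    |∑ p ∈ S, (jacobiSym (-(D : ℤ)) p : ℝ) / p| ≤ ‖∑ p ∈ S, ψ (p : ZMod f) / p‖ + 12 * Real.log a / P := by
  have h1 : ((∑ p ∈ S, (jacobiSym (-(D : ℤ)) p : ℝ) / p : ℝ) : ℂ) = ∑ p ∈ S, ψ (p : ZMod f) / p +
      ∑ p ∈ S, (((jacobiSym (-(D : ℤ)) p : ℤ) : ℂ) - ψ (p : ZMod f)) / p := by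
    rw [← Finset.sum_add_distrib]
    push_cast
    refine Finset.sum_congr rfl fun p _ => ?_
    ring
  have h2 : |∑ p ∈ S, (jacobiSym (-(D : ℤ)) p : ℝ) / p| =
      ‖((∑ p ∈ S, (jacobiSym (-(D : ℤ)) p : ℝ) / p : ℝ) : ℂ)‖ := by
    rw [Complex.norm_real, Real.norm_eq_abs]
  rw [h2, h1]
  refine (norm_add_le _ _).trans (add_le_add le_rfl ?_)
  have hP0 : 0 < P := by linarith
  obtain ⟨T, hT⟩ : ∃ T : Finset ℕ, T = S.filter (fun p : ℕ => p ∣ D) := ⟨_, rfl⟩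
  have h3 : ∑ p ∈ S, (((jacobiSym (-(D : ℤ)) p : ℤ) : ℂ) - ψ (p : ZMod f)) / p =
      ∑ p ∈ T, (((jacobiSym (-(D : ℤ)) p : ℤ) : ℂ) - ψ (p : ZMod f)) / p := by
    rw [hT, Finset.sum_filter]
    refine Finset.sum_congr rfl fun p hp => ?_
    split_ifs with h
    · rfl
    · obtain ⟨hpp, hpP⟩ := hS p hp
      have h7 : 7 ≤ p := by
        have : (7 : ℝ) ≤ p := hP.trans hpP
        exact_mod_cast this
      rw [hψ p hpp (by omega) h, sub_self, zero_div]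
  rw [h3]
  refine (norm_sum_le _ _).trans ?_
  have h4 : ∀ p ∈ T, ‖(((jacobiSym (-(D : ℤ)) p : ℤ) : ℂ) - ψ (p : ZMod f)) / p‖ ≤ 1 / P := by
    intro p hp
    rw [hT, Finset.mem_filter] at hp
    obtain ⟨hpp, hpP⟩ := hS p hp.1
    have hsx : jacobiSym (-(D : ℤ)) p = 0 := by
      have : NeZero p := ⟨hpp.ne_zero⟩
      rw [jacobiSym.eq_zero_iff_not_coprime]
      intro h
      rw [Int.neg_gcd, Int.gcd_natCast_natCast] at h
      have h8 : p ∣ Nat.gcd D p := Nat.dvd_gcd hp.2 (dvd_refl p)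
      rw [h] at h8
      exact hpp.one_lt.ne' (Nat.dvd_one.1 h8)
    have h5 : ‖((jacobiSym (-(D : ℤ)) p : ℤ) : ℂ) - ψ (p : ZMod f)‖ ≤ 1 := by
      rw [hsx, Int.cast_zero, zero_sub, norm_neg]
      exact DirichletCharacter.norm_le_one ψ (p : ZMod f)
    rw [norm_div, Complex.norm_natCast]
    exact div_le_div₀ (by norm_num) h5 hP0 hpP
  refine (Finset.sum_le_card_nsmul _ _ _ h4).trans ?_
  rw [nsmul_eq_mul]
  have h5 : (T.card : ℝ) ≤ 12 * Real.log a := by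
    refine few D a hD hDa ha T ?_
    intro p hp
    rw [hT, Finset.mem_filter] at hp
    exact ⟨(hS p hp.1).1, hp.2⟩
  calc (T.card : ℝ) * (1 / P) ≤ (12 * Real.log a) * (1 / P) := mul_le_mul_of_nonneg_right h5 (by positivity)
    _ = 12 * Real.log a / P := by ring

/-- two equal characters give a square -/
private theorem key (hS : StSQR) {D D' : ℕ} (hD : 1 ≤ D) (hD' : 1 ≤ D')
    (h : ∀ p : ℕ, p.Prime → 7 ≤ p → ¬ p ∣ D → ¬ p ∣ D' →
      jacobiSym (-(D : ℤ)) p = jacobiSym (-(D' : ℤ)) p) : IsSquare (D * D') := by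
  refine hS _ (Nat.mul_pos hD hD') fun p hp h7 hpd => ?_
  have h1 : ¬ p ∣ D := fun k => hpd (k.mul_right _)
  have h2 : ¬ p ∣ D' := fun k => hpd (k.mul_left _)
  have h3 : (((D * D' : ℕ)) : ℤ) = (-(D : ℤ)) * (-(D' : ℤ)) := by
    push_cast
    ring
  rw [h3, jacobiSym.mul_left, ← h p hp h7 h1 h2, ← sq]
  apply jacobiSym.sq_one
  rw [Int.neg_gcd, Int.gcd_natCast_natCast]
  exact ((Nat.Prime.coprime_iff_not_dvd hp).2 h1).symm

/-- **Module BOX.** -/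
theorem hBOX (hN : StNCH) (hS : StSQR) (hD : StDUA) (hM : StM2) : StBOX := by
  intro C₁ u i η hu hi hη
  obtain ⟨m, hm⟩ : ∃ m : ℕ, m = 3600 * u := ⟨_, rfl⟩
  have hu0 : (0 : ℝ) < u := by exact_mod_cast hu
  have hi1 : (1 : ℝ) ≤ i := by exact_mod_cast hi
  obtain ⟨ω, hω⟩ : ∃ ω : ℝ, ω = 1 / (100 * (u : ℝ)) := ⟨_, rfl⟩
  have hω0 : 0 < ω := by rw [hω]; positivity
  have hiω : 0 < (i : ℝ) * ω := by positivity
  have hab : (i : ℝ) * ω ≤ ((i : ℝ) + 1) * ω := by nlinarith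
  have hab3 : (i : ℝ) * ω / 3 ≤ ((i : ℝ) + 1) * ω := by linarith
  have hmi : 12 ≤ (i : ℝ) * ω / 3 * m := by
    have : (i : ℝ) * ω / 3 * m = 12 * i := by
      rw [hω, hm]
      push_cast
      field_simp
      ring
    rw [this]; linarith
  obtain ⟨C, hC, hDm⟩ := hD m ((i : ℝ) * ω / 3) (((i : ℝ) + 1) * ω) (by omega) (by positivity) hab3 hmi
  obtain ⟨n₀, hn₀⟩ := eventually_atTop.1 hDm
  have hlog : Real.log (((i : ℝ) + 1) * ω / ((i : ℝ) * ω)) ≤ 7 / 10 := by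
    have h1 : ((i : ℝ) + 1) * ω / ((i : ℝ) * ω) = 1 + 1 / i := by field_simp
    have h2 : (1 : ℝ) / i ≤ 1 := by rw [div_le_one (by linarith)]; exact hi1
    have h3 : Real.log (1 + 1 / (i : ℝ)) ≤ Real.log 2 :=
      Real.log_le_log (by positivity) (by linarith)
    rw [h1]
    have := Real.log_two_lt_d9
    linarith
  obtain ⟨z₀, hz⟩ := hM ((i : ℝ) * ω) (((i : ℝ) + 1) * ω) hiω hab (3 / 10) (by norm_num)
  -- conditions on `a`
  have e1 : ∀ᶠ a : ℕ in atTop, (7 : ℝ) ≤ (a : ℝ) ^ ((i : ℝ) * ω) :=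
    ((tendsto_rpow_atTop hiω).comp tendsto_natCast_atTop_atTop).eventually_ge_atTop 7
  have e2 : ∀ᶠ a : ℕ in atTop, Real.log a ≤ η / 24 * (a : ℝ) ^ ((i : ℝ) * ω) := by
    have h1 := (isLittleO_log_rpow_atTop hiω).def (c := η / 24) (by positivity)
    have h2 := tendsto_natCast_atTop_atTop (R := ℝ) |>.eventually h1
    filter_upwards [h2] with N hN
    rw [Real.norm_eq_abs, Real.norm_eq_abs] at hN
    rw [abs_of_nonneg (by positivity : (0 : ℝ) ≤ (N : ℝ) ^ ((i : ℝ) * ω))] at hN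
    exact (le_abs_self _).trans hN
  have e3 : ∀ᶠ a : ℕ in atTop, z₀ ≤ (a : ℝ) :=
    tendsto_natCast_atTop_atTop.eventually_ge_atTop z₀
  have e4 : ∀ᶠ a : ℕ in atTop, Real.log a ^ C₁ ≤ 1 / 3 * (a : ℝ) := by
    have h1 := (Real.isLittleO_pow_log_id_atTop (n := C₁)).def (c := 1 / 3) (by norm_num)
    have h2 := tendsto_natCast_atTop_atTop (R := ℝ) |>.eventually h1
    filter_upwards [h2] with N hN
    rw [Real.norm_eq_abs, Real.norm_eq_abs, id] at hN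
    rw [abs_of_nonneg (by positivity : (0 : ℝ) ≤ (N : ℝ))] at hN
    exact (le_abs_self _).trans hN
  obtain ⟨a₀, ha₀⟩ := eventually_atTop.1 ((((e1.and e2).and e3).and e4).and (eventually_ge_atTop (max n₀ 3)))
  refine ⟨⌈C / (η / 2) ^ (2 * m)⌉₊, a₀, ?_⟩
  intro a n E ha han hna hE1 hE2 hE3
  obtain ⟨⟨⟨⟨h1, h2⟩, h3⟩, h4⟩, h5⟩ := ha₀ a ha
  have ha3 : 3 ≤ a := (le_max_right _ _).trans h5
  have han0 : n₀ ≤ a := (le_max_left _ _).trans h5
  have haR : (3 : ℝ) ≤ a := by exact_mod_cast ha3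
  have hale : a ≤ n := by nlinarith
  have hna3 : n ≤ a ^ 3 := by
    have : (a + 1) ^ 2 ≤ a ^ 3 := by nlinarith
    omega
  have hP0 : 0 < (a : ℝ) ^ ((i : ℝ) * ω) := by linarith
  -- the size of `c`
  have hc3 : ∀ c ∈ E, 3 * c ≤ a := by
    intro c hc
    have k1 := (hE1 c hc).2.2
    have k2 : (3 : ℝ) * c ≤ a := by linarith
    exact_mod_cast k2
  have hdd1 : ∀ c ∈ E, 1 ≤ dd n c := by
    intro c hc
    have k1 := (hE1 c hc).2.1
    unfold dd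
    exact Nat.mul_pos (by omega) (by omega)
  have hdd4 : ∀ c ∈ E, 4 * dd n c ≤ 16 * n ^ 2 := by
    intro c hc
    have k1 : 3 * c ≤ n := (hc3 c hc).trans hale
    unfold dd
    nlinarith
  have hdd8 : ∀ c ∈ E, dd n c ≤ a ^ 8 := by
    intro c hc
    have k1 := hdd4 c hc
    have k2 : n ^ 2 ≤ (a ^ 3) ^ 2 := Nat.pow_le_pow_left hna3 2
    have k3 : (a ^ 3) ^ 2 * 4 ≤ a ^ 8 := by
      have : 4 ≤ a ^ 2 := by nlinarith
      calc (a ^ 3) ^ 2 * 4 ≤ (a ^ 3) ^ 2 * a ^ 2 := Nat.mul_le_mul_left _ this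
        _ = a ^ 8 := by ring
    omega
  -- the characters
  have hex : ∀ c : ℕ, ∃ (f : ℕ) (_ : NeZero f) (ψ : DirichletCharacter ℂ f), 1 ≤ dd n c →
      ψ.IsPrimitive ∧ f ≤ 4 * dd n c ∧ ∀ p : ℕ, p.Prime → p ≠ 2 → ¬ p ∣ dd n c →
        ψ (p : ZMod f) = ((jacobiSym (-(dd n c : ℤ)) p : ℤ) : ℂ) := by
    intro c
    by_cases hn : 1 ≤ dd n c
    · obtain ⟨f, hf, ψ, h⟩ := hN (dd n c) hn
      exact ⟨f, hf, ψ, fun _ => h⟩
    · exact ⟨1, inferInstance, 1, fun h => absurd h hn⟩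
  choose f hf ψ hψ using hex
  obtain ⟨B, hB⟩ : ∃ B : Finset ℕ, B = bq a ω i := ⟨_, rfl⟩
  have hBp : ∀ p ∈ B, p.Prime ∧ (a : ℝ) ^ ((i : ℝ) * ω) ≤ (p : ℝ) ∧
      (p : ℝ) ≤ (a : ℝ) ^ (((i : ℝ) + 1) * ω) := by
    intro p hp
    rw [hB] at hp
    unfold bq at hp
    rw [Finset.mem_filter, Finset.mem_range] at hp
    obtain ⟨hp1, hp2, hp3⟩ := hp
    exact ⟨hp2, hp3, (Nat.lt_ceil.1 hp1).le⟩
  have hB1 : ∑ p ∈ B, (1 : ℝ) / p ≤ 1 := by
    have h5 := (abs_le.1 (hz a h3)).2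
    rw [hB]
    unfold bq
    linarith
  have haleR : (a : ℝ) ≤ n := by exact_mod_cast hale
  have hnR : (n : ℝ) ≤ (a : ℝ) ^ 3 := by exact_mod_cast hna3
  have hBn : ∀ p ∈ B, p.Prime ∧ (n : ℝ) ^ ((i : ℝ) * ω / 3) ≤ (p : ℝ) ∧
      (p : ℝ) ≤ (n : ℝ) ^ (((i : ℝ) + 1) * ω) := by
    intro p hp
    obtain ⟨k1, k2, k3⟩ := hBp p hp
    refine ⟨k1, ?_, ?_⟩
    · calc (n : ℝ) ^ ((i : ℝ) * ω / 3) ≤ ((a : ℝ) ^ 3) ^ ((i : ℝ) * ω / 3) :=
            Real.rpow_le_rpow (by positivity) hnR (by positivity)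
        _ = (a : ℝ) ^ ((i : ℝ) * ω) := by
            rw [← Real.rpow_natCast, ← Real.rpow_mul (by positivity)]
            congr 1
            push_cast
            ring
        _ ≤ p := k2
    · exact k3.trans (Real.rpow_le_rpow (by positivity) haleR (by positivity))
  have h6 := hn₀ n (by omega) (η / 2) B E f hf ψ (by linarith) hBn hB1 ?_ ?_ ?_ ?_
  · have h6 : (E.card : ℝ) ≤ C / (η / 2) ^ (2 * m) := by
      rw [le_div_iff₀ (by positivity)]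
      exact h6
    have h7 : (E.card : ℝ) ≤ (⌈C / (η / 2) ^ (2 * m)⌉₊ : ℝ) := h6.trans (Nat.le_ceil _)
    exact_mod_cast h7
  · intro c hc
    have k := hψ c (hdd1 c hc)
    exact ⟨k.1, k.2.1.trans (hdd4 c hc)⟩
  · have k1 : E ⊆ Finset.Icc 1 a := by
      intro c hc
      rw [Finset.mem_Icc]
      have := hc3 c hc
      exact ⟨(hE1 c hc).2.1, by omega⟩
    have k2 := Finset.card_le_card k1
    rw [Nat.card_Icc] at k2
    omega
  · intro c hc c' hc' hne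
    by_contra hcon
    push Not at hcon
    refine hE2 c hc c' hc' hne (key hS (hdd1 c hc) (hdd1 c' hc') fun p hp h7 k1 k2 => ?_)
    have q1 := (hψ c (hdd1 c hc)).2.2 p hp (by omega) k1
    have q2 := (hψ c' (hdd1 c' hc')).2.2 p hp (by omega) k2
    have q3 := hcon p
    rw [q1, q2] at q3
    exact_mod_cast q3
  · intro c hc
    have := hf c
    have k1 := cmp_sum (dd n c) a (f c) (ψ c) ((a : ℝ) ^ ((i : ℝ) * ω)) (hdd1 c hc) (hdd8 c hc)
      (by omega) h1 B (fun p hp => ⟨(hBp p hp).1, (hBp p hp).2.1⟩) (hψ c (hdd1 c hc)).2.2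
    have k2 : 12 * Real.log a / (a : ℝ) ^ ((i : ℝ) * ω) ≤ η / 2 := by
      rw [div_le_iff₀ hP0]
      linarith
    have k3 := hE3 c hc
    unfold cs at k3
    rw [← hω, ← hB] at k3
    linarith

end Pool.Agent.Helper55.EL
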